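import Mathlib

/-!
# There are infinitely many `n` such that `n - 2 ^ k` is squarefree for all `k ≥ 1`, `2 ^ k < n`
-/

namespace Pool.Agent.Results.MP_fcd74d_nt.InfinitelyManyGood

open Finset

/-- The number of primes up to `Z` is at most `δ Z` for large `Z`. -/
lemma primeCounting_le {δ : ℝ} (hδ : 0 < δ) :
    ∃ Y : ℕ, ∀ Z : ℕ, Y ≤ Z → (Nat.primeCounting Z : ℝ) ≤ δ * Z := by
  have h1 := Chebyshev.eventually_primeCounting_le (ε := 1) one_pos
  have h2 : ∀ᶠ x : ℝ in Filter.atTop, (Real.log 4 + 1) / δ ≤ Real.log x :=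
    Real.tendsto_log_atTop.eventually_ge_atTop _
  have h3 : ∀ᶠ x : ℝ in Filter.atTop, (1 : ℝ) < x := Filter.eventually_gt_atTop 1
  obtain ⟨X, hX⟩ := Filter.eventually_atTop.1 (h1.and (h2.and h3))
  refine ⟨⌈X⌉₊, fun Z hZ => ?_⟩
  obtain ⟨a, b, c⟩ := hX (Z : ℝ) ((Nat.le_ceil X).trans (by exact_mod_cast hZ))
  rw [Nat.floor_natCast] at a
  have hlog : 0 < Real.log (Z : ℝ) := Real.log_pos c
  refine a.trans ?_
  rw [div_le_iff₀ hlog]
  rw [div_le_iff₀ hδ] at b
  have hZ0 : (0 : ℝ) ≤ Z := by positivity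
  nlinarith [mul_le_mul_of_nonneg_right b hZ0]

/-- The tail of the sum of the inverse squares of the primes. -/
lemma sum_inv_sq {δ : ℝ} (hδ : 0 < δ) :
    ∃ Y : ℕ, ∀ y : ℕ, Y ≤ y → ∀ Z : ℕ, y ≤ Z →
      (∑ p ∈ (Ioc y Z).filter Nat.Prime, (1 : ℝ) / (p : ℝ) ^ 2) ≤ 3 * δ / y := by
  obtain ⟨Y, hY⟩ := primeCounting_le hδ
  refine ⟨Y + 1, fun y hy => ?_⟩
  have hy0 : (0 : ℝ) < y := by
    have : 0 < y := by omega
    exact_mod_cast this
  have key : ∀ Z : ℕ, y ≤ Z →
      (∑ p ∈ (Ioc y Z).filter Nat.Prime, (1 : ℝ) / (p : ℝ) ^ 2) ≤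
        2 * δ * (1 / (y : ℝ) - 1 / (Z : ℝ)) + (Nat.primeCounting Z : ℝ) / (Z : ℝ) ^ 2 := by
    intro Z hZ
    induction Z, hZ using Nat.le_induction with
    | base => simp; positivity
    | succ Z hZ ih =>
      have hZ0 : (0 : ℝ) < Z := by
        have : 0 < Z := by omega
        exact_mod_cast this
      have hpi : (Nat.primeCounting Z : ℝ) ≤ δ * Z := hY Z (by omega)
      have hsplit : (Ioc y (Z + 1)).filter Nat.Prime =
          (Ioc y Z).filter Nat.Prime ∪ ({Z + 1} : Finset ℕ).filter Nat.Prime := by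
        rw [← filter_union]
        congr 1
        ext a
        simp only [mem_Ioc, mem_union, mem_singleton]
        omega
      have hdisj : Disjoint ((Ioc y Z).filter Nat.Prime) (({Z + 1} : Finset ℕ).filter Nat.Prime) := by
        rw [Finset.disjoint_left]
        intro a ha hb
        simp only [mem_filter, mem_Ioc, mem_singleton] at ha hb
        omega
      rw [hsplit, sum_union hdisj]
      have hstep : (∑ p ∈ ({Z + 1} : Finset ℕ).filter Nat.Prime, (1 : ℝ) / (p : ℝ) ^ 2) =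
          ((Nat.primeCounting (Z + 1) : ℝ) - Nat.primeCounting Z) / ((Z : ℝ) + 1) ^ 2 := by
        by_cases hp : Nat.Prime (Z + 1)
        · have h1 : Nat.primeCounting (Z + 1) = Nat.primeCounting Z + 1 := by
            unfold Nat.primeCounting Nat.primeCounting'
            rw [Nat.count_succ, if_pos hp]
          rw [filter_singleton, if_pos hp, sum_singleton, h1]
          push_cast
          ring
        · have h1 : Nat.primeCounting (Z + 1) = Nat.primeCounting Z := by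
            unfold Nat.primeCounting Nat.primeCounting'
            rw [Nat.count_succ, if_neg hp]
            rfl
          rw [filter_singleton, if_neg hp, sum_empty, h1]
          simp
      rw [hstep]
      have hmain : (Nat.primeCounting Z : ℝ) / (Z : ℝ) ^ 2 - (Nat.primeCounting Z : ℝ) / ((Z : ℝ) + 1) ^ 2
          ≤ 2 * δ * (1 / (Z : ℝ) - 1 / ((Z : ℝ) + 1)) := by
        rw [div_sub_div _ _ (by positivity) (by positivity), div_sub_div _ _ (by positivity)
          (by positivity), mul_div_assoc', div_le_div_iff₀ (by positivity) (by positivity)]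
        have e1 : ((Nat.primeCounting Z : ℝ) * ((Z : ℝ) + 1) ^ 2 - (Z : ℝ) ^ 2 * Nat.primeCounting Z)
            = (Nat.primeCounting Z : ℝ) * (2 * Z + 1) := by ring
        rw [e1]
        have e2 : (Nat.primeCounting Z : ℝ) * (2 * Z + 1) * ((Z : ℝ) * (Z + 1)) ≤
            (δ * Z) * (2 * Z + 1) * ((Z : ℝ) * (Z + 1)) := by gcongr
        refine e2.trans ?_
        have e3 : 2 * δ * (1 * ((Z : ℝ) + 1) - (Z : ℝ) * 1) * ((Z : ℝ) ^ 2 * ((Z : ℝ) + 1) ^ 2) -
            (δ * Z) * (2 * Z + 1) * ((Z : ℝ) * (Z + 1)) = δ * Z ^ 2 * (Z + 1) := by ring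
        have e4 : 0 ≤ δ * (Z : ℝ) ^ 2 * (Z + 1) := by positivity
        linarith
      push_cast
      have : ((Nat.primeCounting (Z + 1) : ℝ) - Nat.primeCounting Z) / ((Z : ℝ) + 1) ^ 2 =
        (Nat.primeCounting (Z + 1) : ℝ) / ((Z : ℝ) + 1) ^ 2 -
          (Nat.primeCounting Z : ℝ) / ((Z : ℝ) + 1) ^ 2 := by ring
      rw [this]
      linarith
  intro Z hZ
  have hZ0 : (0 : ℝ) < Z := by
    have : 0 < Z := by omega
    exact_mod_cast this
  have hpi : (Nat.primeCounting Z : ℝ) ≤ δ * Z := hY Z (by omega)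
  refine (key Z hZ).trans ?_
  have h1 : (Nat.primeCounting Z : ℝ) / (Z : ℝ) ^ 2 ≤ δ / Z := by
    rw [div_le_div_iff₀ (by positivity) hZ0]
    nlinarith
  have h2 : δ / (Z : ℝ) ≤ 2 * δ * (1 / (Z : ℝ)) := by
    have : 0 ≤ δ / (Z : ℝ) := by positivity
    calc δ / (Z : ℝ) ≤ 2 * (δ / Z) := by linarith
      _ = 2 * δ * (1 / (Z : ℝ)) := by ring
  have h3 : 2 * δ * (1 / (y : ℝ)) = 2 * δ / y := by ring
  have h4 : 2 * δ / (y : ℝ) ≤ 3 * δ / y := by gcongr; norm_num
  calc _ ≤ 2 * δ * (1 / (y : ℝ) - 1 / (Z : ℝ)) + δ / Z := by linarith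
    _ ≤ 2 * δ * (1 / (y : ℝ)) := by rw [mul_sub]; linarith
    _ ≤ _ := by rw [h3]; exact h4

/-- A set of naturals below `T` in one residue class modulo `q` has at most `T / q + 1` elements. -/
lemma card_le_of_modEq {q T : ℕ} (S : Finset ℕ) (hS : ∀ t ∈ S, t < T)
    (hmod : ∀ t ∈ S, ∀ s ∈ S, t ≡ s [MOD q]) : S.card ≤ T / q + 1 := by
  have : S.card ≤ (range (T / q + 1)).card := by
    refine card_le_card_of_injOn (fun t => t / q) ?_ ?_
    · intro t ht
      simp only [coe_range, Set.mem_Iio]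
      have h1 : t < T := hS t ht
      have : t / q ≤ T / q := Nat.div_le_div_right h1.le
      omega
    · intro t ht s hs hts
      have h1 : t % q = s % q := hmod t ht s hs
      have h2 : t / q = s / q := hts
      calc t = q * (t / q) + t % q := (Nat.div_add_mod t q).symm
        _ = q * (s / q) + s % q := by rw [h1, h2]
        _ = s := Nat.div_add_mod s q
  simpa using this

/-- The product of the odd primes up to `y`. -/
def oddPrimorial (y : ℕ) : ℕ := ∏ p ∈ (range (y + 1)).filter (fun p => p.Prime ∧ p ≠ 2), p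

lemma oddPrimorial_pos (y : ℕ) : 0 < oddPrimorial y := by
  refine prod_pos fun p hp => ?_
  exact (mem_filter.1 hp).2.1.pos

lemma dvd_oddPrimorial {y p : ℕ} (hp : p.Prime) (h2 : p ≠ 2) (hpy : p ≤ y) :
    p ∣ oddPrimorial y :=
  dvd_prod_of_mem (fun p => p) (mem_filter.2 ⟨mem_range.2 (by omega), hp, h2⟩)

lemma not_dvd_oddPrimorial {y p : ℕ} (hp : p.Prime) (hpy : y < p) :
    ¬ p ∣ oddPrimorial y := by
  intro h
  obtain ⟨q, hq, hpq⟩ := (Prime.dvd_finsetProd_iff hp.prime (fun p => p)).1 h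
  have hq' := mem_filter.1 hq
  have : p = q := (Nat.prime_dvd_prime_iff_eq hp hq'.2.1).1 hpq
  have := mem_range.1 hq'.1
  omega

lemma odd_oddPrimorial (y : ℕ) : ¬ 2 ∣ oddPrimorial y := by
  intro h
  obtain ⟨q, hq, hpq⟩ := (Prime.dvd_finsetProd_iff Nat.prime_two.prime (fun p => p)).1 h
  have hq' := mem_filter.1 hq
  have : 2 = q := (Nat.prime_dvd_prime_iff_eq Nat.prime_two hq'.2.1).1 hpq
  exact hq'.2.2 this.symm

lemma oddPrimorial_le (y : ℕ) : oddPrimorial y ≤ 4 ^ y := by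
  refine le_trans ?_ (primorial_le_four_pow y)
  unfold oddPrimorial primorial
  refine prod_le_prod_of_subset_of_one_le' ?_ ?_
  · intro p hp
    have := mem_filter.1 hp
    simp only [mem_filter] at this ⊢
    exact ⟨this.1, this.2.1⟩
  · intro p hp _
    exact (mem_filter.1 hp).2.one_le

/-- **Theorem.** There are infinitely many integers `n ≥ 3` such that `n - 2 ^ k` is squarefree for
every `k ≥ 1` with `2 ^ k < n`. -/
theorem result :
    {n : ℕ | 3 ≤ n ∧ ∀ k : ℕ, 1 ≤ k → 2 ^ k < n → Squarefree (n - 2 ^ k)}.Infinite := by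
  rw [Set.infinite_iff_exists_gt]
  intro N
  obtain ⟨Y, hY⟩ := sum_inv_sq (δ := 1 / 192) (by norm_num)
  obtain ⟨q, hqN, hq⟩ := Nat.exists_infinite_primes (N + 5)
  set y := max (max Y q) 8 with hy
  have hyY : Y ≤ y := le_trans (le_max_left _ _) (le_max_left _ _)
  have hyq : q ≤ y := le_trans (le_max_right _ _) (le_max_left _ _)
  have hy5 : 8 ≤ y := le_max_right _ _
  set M := oddPrimorial y with hM
  have hM0 : 0 < M := oddPrimorial_pos y
  have hMq : q ≤ M := Nat.le_of_dvd hM0 (dvd_oddPrimorial hq (by omega) hyq)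
  have hM4 : M ≤ 4 ^ y := oddPrimorial_le y
  set T := 2 ^ (8 * y) / (2 * M) with hT
  -- the bad parameters
  set P := (Ioc y (2 ^ (4 * y))).filter Nat.Prime with hP
  set B : ℕ → ℕ → Finset ℕ := fun k p =>
    (range T).filter (fun t => 2 ^ k < M * (2 * t + 1) ∧ p ^ 2 ∣ M * (2 * t + 1) - 2 ^ k) with hB
  have hBcard : ∀ k : ℕ, ∀ p ∈ P, (B k p).card ≤ T / p ^ 2 + 1 := by
    intro k p hp
    have hp' := mem_filter.1 hp
    have hpp : p.Prime := hp'.2
    have hyp : y < p := (mem_Ioc.1 hp'.1).1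
    refine card_le_of_modEq _ (fun t ht => mem_range.1 (mem_filter.1 ht).1) ?_
    intro t ht s hs
    have ht' := (mem_filter.1 ht).2
    have hs' := (mem_filter.1 hs).2
    have h1 : ((p ^ 2 : ℕ) : ℤ) ∣ (M : ℤ) * (2 * t + 1) - 2 ^ k := by
      have := Int.natCast_dvd_natCast.2 ht'.2
      rw [Nat.cast_sub ht'.1.le] at this
      push_cast at this ⊢
      exact this
    have h2 : ((p ^ 2 : ℕ) : ℤ) ∣ (M : ℤ) * (2 * s + 1) - 2 ^ k := by
      have := Int.natCast_dvd_natCast.2 hs'.2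
      rw [Nat.cast_sub hs'.1.le] at this
      push_cast at this ⊢
      exact this
    have h3 : ((p ^ 2 : ℕ) : ℤ) ∣ (2 * M : ℤ) * ((s : ℤ) - t) := by
      have := dvd_sub h2 h1
      have e : (M : ℤ) * (2 * s + 1) - 2 ^ k - ((M : ℤ) * (2 * t + 1) - 2 ^ k) =
        (2 * M : ℤ) * ((s : ℤ) - t) := by ring
      rwa [e] at this
    have hcop : IsCoprime ((p ^ 2 : ℕ) : ℤ) (2 * M : ℤ) := by
      have : Nat.Coprime (p ^ 2) (2 * M) := by
        refine Nat.Coprime.pow_left 2 ?_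
        refine (Nat.Prime.coprime_iff_not_dvd hpp).2 ?_
        intro h
        rcases (Nat.Prime.dvd_mul hpp).1 h with h | h
        · have := Nat.le_of_dvd (by norm_num) h
          omega
        · exact not_dvd_oddPrimorial hpp hyp h
      have := Nat.isCoprime_iff_coprime.2 this
      push_cast at this ⊢
      exact this
    have h4 := hcop.dvd_of_dvd_mul_left h3
    exact (Nat.modEq_iff_dvd.2 h4)
  -- total number of bad parameters
  set Bad := (Ico 1 (8 * y)).biUnion (fun k => P.biUnion (fun p => B k p)) with hBad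
  have hBadcard : (Bad.card : ℝ) ≤ 8 * y * (T * (3 * (1 / 192) / y) + 2 ^ (4 * y)) := by
    have h1 : (Bad.card : ℝ) ≤ ∑ k ∈ Ico 1 (8 * y), ∑ p ∈ P, ((B k p).card : ℝ) := by
      have a1 : Bad.card ≤ ∑ k ∈ Ico 1 (8 * y), (P.biUnion (fun p => B k p)).card := card_biUnion_le
      have a2 : ∑ k ∈ Ico 1 (8 * y), (P.biUnion (fun p => B k p)).card ≤
          ∑ k ∈ Ico 1 (8 * y), ∑ p ∈ P, (B k p).card := sum_le_sum fun k _ => card_biUnion_le
      exact_mod_cast a1.trans a2
    have h2 : ∀ k ∈ Ico 1 (8 * y), ∑ p ∈ P, ((B k p).card : ℝ) ≤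
        T * (3 * (1 / 192) / y) + 2 ^ (4 * y) := by
      intro k _
      have b1 : ∑ p ∈ P, ((B k p).card : ℝ) ≤ ∑ p ∈ P, ((T : ℝ) * (1 / (p : ℝ) ^ 2) + 1) := by
        refine sum_le_sum fun p hp => ?_
        have c1 : ((B k p).card : ℝ) ≤ ((T / p ^ 2 : ℕ) : ℝ) + 1 := by exact_mod_cast hBcard k p hp
        have c2 : ((T / p ^ 2 : ℕ) : ℝ) ≤ (T : ℝ) / ((p ^ 2 : ℕ) : ℝ) := Nat.cast_div_le
        push_cast at c2
        rw [mul_one_div]
        linarith
      refine b1.trans ?_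
      rw [sum_add_distrib, ← mul_sum]
      have hyZ : y ≤ 2 ^ (4 * y) := by
        have : y < 2 ^ y := Nat.lt_two_pow_self
        have : 2 ^ y ≤ 2 ^ (4 * y) := Nat.pow_le_pow_right (by norm_num) (by omega)
        omega
      have b2 := hY y hyY (2 ^ (4 * y)) hyZ
      have b3 : (∑ p ∈ P, (1 : ℝ)) ≤ 2 ^ (4 * y) := by
        rw [sum_const, nsmul_eq_mul, mul_one]
        have : P.card ≤ (Ioc y (2 ^ (4 * y))).card := card_filter_le _ _
        rw [Nat.card_Ioc] at this
        have h' : P.card ≤ 2 ^ (4 * y) := by omega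
        exact_mod_cast h'
      have b4 : (T : ℝ) * ∑ p ∈ P, (1 : ℝ) / (p : ℝ) ^ 2 ≤ T * (3 * (1 / 192) / y) :=
        mul_le_mul_of_nonneg_left b2 (by positivity)
      linarith
    refine h1.trans ((sum_le_sum h2).trans ?_)
    rw [sum_const, nsmul_eq_mul, Nat.card_Ico]
    have hnn : (0 : ℝ) ≤ T * (3 * (1 / 192) / y) + 2 ^ (4 * y) := by positivity
    refine mul_le_mul_of_nonneg_right ?_ hnn
    have : ((8 * y - 1 : ℕ) : ℝ) ≤ ((8 * y : ℕ) : ℝ) := by exact_mod_cast Nat.sub_le _ _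
    push_cast at this
    exact this
  -- the number of parameters is large
  have hTlow : 2 ^ (6 * y - 2) ≤ T := by
    rw [hT, Nat.le_div_iff_mul_le (by positivity)]
    calc 2 ^ (6 * y - 2) * (2 * M) ≤ 2 ^ (6 * y - 2) * (2 * 4 ^ y) := by gcongr
      _ = 2 ^ (6 * y - 2) * (2 * 2 ^ (2 * y)) := by rw [pow_mul]; norm_num
      _ = 2 ^ (6 * y - 2 + 1 + 2 * y) := by rw [pow_add, pow_add]; ring
      _ ≤ 2 ^ (8 * y) := Nat.pow_le_pow_right (by norm_num) (by omega)
  have hsmall : 32 * y * 2 ^ (4 * y) < T := by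
    have h1 : y < 2 ^ y := Nat.lt_two_pow_self
    calc 32 * y * 2 ^ (4 * y) < 32 * 2 ^ y * 2 ^ (4 * y) := by gcongr
      _ = 2 ^ (5 + y + 4 * y) := by rw [pow_add, pow_add]; norm_num
      _ ≤ 2 ^ (6 * y - 2) := ?_
      _ ≤ T := hTlow
    exact Nat.pow_le_pow_right (by norm_num) (by omega)
  have hlt : Bad.card < T := by
    have hy0 : (0 : ℝ) < y := by
      have : 0 < y := by omega
      exact_mod_cast this
    have h1 : (8 : ℝ) * y * (T * (3 * (1 / 192) / y) + 2 ^ (4 * y)) =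
        T / 8 + (32 * y * 2 ^ (4 * y)) / 4 := by
      field_simp
      ring
    rw [h1] at hBadcard
    have h2 : ((32 * y * 2 ^ (4 * y) : ℕ) : ℝ) < (T : ℝ) := by exact_mod_cast hsmall
    push_cast at h2
    have h3 : (Bad.card : ℝ) < T := by linarith
    exact_mod_cast h3
  obtain ⟨t, htT, htB⟩ : ∃ t ∈ range T, t ∉ Bad := by
    by_contra hcon
    push Not at hcon
    have := card_le_card (show range T ⊆ Bad from hcon)
    rw [card_range] at this
    omega
  have htT' : t < T := mem_range.1 htT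
  refine ⟨M * (2 * t + 1), ⟨?_, ?_⟩, ?_⟩
  · have : M * 1 ≤ M * (2 * t + 1) := Nat.mul_le_mul_left M (by omega)
    omega
  · intro k hk hkn
    set n := M * (2 * t + 1) with hn
    have hnlt : n < 2 ^ (8 * y) := by
      have h1 : 2 * t + 1 < 2 * T := by omega
      have h2 : n < M * (2 * T) := Nat.mul_lt_mul_of_pos_left h1 hM0
      have h3 : (2 * M) * T ≤ 2 ^ (8 * y) := Nat.mul_div_le _ _
      calc n < M * (2 * T) := h2
        _ = (2 * M) * T := by ring
        _ ≤ _ := h3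
    have hk8 : k < 8 * y := by
      by_contra hcon
      have : 2 ^ (8 * y) ≤ 2 ^ k := Nat.pow_le_pow_right (by norm_num) (by omega)
      omega
    have hpos : 0 < n - 2 ^ k := by omega
    rw [Nat.squarefree_iff_prime_squarefree]
    intro p hp hpd
    have hpd2 : p ∣ n - 2 ^ k := (Dvd.intro _ rfl).trans hpd
    have hp2 : p ≠ 2 := by
      rintro rfl
      have hodd : ¬ 2 ∣ n := by
        rw [hn, Nat.Prime.dvd_mul Nat.prime_two]
        push Not
        exact ⟨odd_oddPrimorial y, by omega⟩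
      have h2k : 2 ∣ 2 ^ k := dvd_pow_self 2 (by omega)
      exact hodd ((Nat.dvd_sub_iff_left hkn.le h2k).1 hpd2)
    have hyp : y < p := by
      by_contra hcon
      have h1 : p ∣ n := (dvd_oddPrimorial hp hp2 (by omega)).trans (Dvd.intro _ rfl)
      have h2 : p ∣ 2 ^ k := (Nat.dvd_sub_iff_right hkn.le h1).1 hpd2
      have h3 := hp.dvd_of_dvd_pow h2
      exact hp2 ((Nat.prime_dvd_prime_iff_eq hp Nat.prime_two).1 h3)
    have hple : p ≤ 2 ^ (4 * y) := by
      by_contra hcon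
      push Not at hcon
      have h1 : p * p ≤ n - 2 ^ k := Nat.le_of_dvd hpos hpd
      have h2 : 2 ^ (4 * y) * 2 ^ (4 * y) < p * p := Nat.mul_lt_mul'' hcon hcon
      have h3 : 2 ^ (4 * y) * 2 ^ (4 * y) = 2 ^ (8 * y) := by rw [← pow_add]; congr 1; ring
      have h4 : p * p < 2 ^ (8 * y) := lt_of_le_of_lt (h1.trans (Nat.sub_le _ _)) hnlt
      rw [h3] at h2
      exact absurd h4 (not_lt.2 h2.le)
    apply htB
    rw [hBad, mem_biUnion]
    refine ⟨k, mem_Ico.2 ⟨hk, hk8⟩, ?_⟩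
    rw [mem_biUnion]
    refine ⟨p, mem_filter.2 ⟨mem_Ioc.2 ⟨hyp, hple⟩, hp⟩, ?_⟩
    rw [hB]
    refine mem_filter.2 ⟨htT, hkn, ?_⟩
    rw [pow_two]
    exact hpd
  · have : M * 1 ≤ M * (2 * t + 1) := Nat.mul_le_mul_left M (by omega)
    omega

end Pool.Agent.Results.MP_fcd74d_nt.InfinitelyManyGood
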